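import Mathlib

set_option autoImplicit false

/-!
# MP_df7fe8_co: a locally chain-bounded lattice with no strictly monotone map to the integers

The lattice `M` has the elements `c 0 > c 1 > c 2 > …`, for every function `φ : ℕ → ℕ` and every `i`
a chain `e φ i 0 < e φ i 1 < … < e φ i (φ i)` above `c i`, and for every nonempty finite set `F` of
functions an element `b F`, above `c 0` and above all `e φ i k` with `φ ∈ F`; the `b F` are ordered by
inclusion.
-/

namespace Pool.Agent.Results.MP_df7fe8_co.NoStrictMap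

/-- `P` is locally chain-bounded: for every pair `x ≤ y` there is a number `n` such that every
chain of `P` contained in the interval `[x, y]` is finite and has at most `n` elements. -/
def LocallyChainBounded (P : Type) [PartialOrder P] : Prop :=
  ∀ x y : P, x ≤ y → ∃ n : ℕ, ∀ C : Set P, C ⊆ Set.Icc x y → IsChain (· ≤ ·) C →
    C.Finite ∧ C.ncard ≤ n

/-- The elements. -/
inductive M : Type
  | c (i : ℕ)
  | e (φ : ℕ → ℕ) (i k : ℕ) (hk : k ≤ φ i)
  | b (F : Finset (ℕ → ℕ)) (hF : F.Nonempty)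

namespace M

/-- The order. -/
def le : M → M → Prop
  | c i, c j => j ≤ i
  | c i, e _ j _ _ => j ≤ i
  | c _, b _ _ => True
  | e _ _ _ _, c _ => False
  | e φ i k _, e ψ j l _ => φ = ψ ∧ i = j ∧ k ≤ l
  | e φ _ _ _, b F _ => φ ∈ F
  | b _ _, c _ => False
  | b _ _, e _ _ _ _ => False
  | b F _, b G _ => F ⊆ G

instance : PartialOrder M where
  le := le
  le_refl x := by cases x <;> simp [le]
  le_trans x y z hxy hyz := by
    cases x <;> cases y <;> cases z <;> simp only [le] at hxy hyz ⊢
    · omega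
    · omega
    · omega
    · obtain ⟨rfl, rfl, h⟩ := hxy
      obtain ⟨rfl, rfl, h'⟩ := hyz
      exact ⟨rfl, rfl, h.trans h'⟩
    · obtain ⟨rfl, rfl, h⟩ := hxy
      exact hyz
    · exact hyz hxy
    · exact hxy.trans hyz
  le_antisymm x y hxy hyx := by
    cases x <;> cases y <;> simp only [le] at hxy hyx
    · rw [le_antisymm hyx hxy]
    · obtain ⟨rfl, rfl, h⟩ := hxy
      obtain rfl := le_antisymm h hyx.2.2
      rfl
    · obtain rfl := Finset.Subset.antisymm hxy hyx
      rfl

theorem c_le_c {i j : ℕ} : c i ≤ c j ↔ j ≤ i := Iff.rfl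
theorem c_le_e {i j k : ℕ} {ψ : ℕ → ℕ} {h : k ≤ ψ j} : c i ≤ e ψ j k h ↔ j ≤ i := Iff.rfl
theorem c_le_b {i : ℕ} {F : Finset (ℕ → ℕ)} {h : F.Nonempty} : c i ≤ b F h ↔ True := Iff.rfl
theorem e_le_c {i j k : ℕ} {ψ : ℕ → ℕ} {h : k ≤ ψ j} : e ψ j k h ≤ c i ↔ False := Iff.rfl
theorem e_le_e {i j k l : ℕ} {φ ψ : ℕ → ℕ} {h : k ≤ φ i} {h' : l ≤ ψ j} :
    e φ i k h ≤ e ψ j l h' ↔ φ = ψ ∧ i = j ∧ k ≤ l := Iff.rfl
theorem e_le_b {i k : ℕ} {φ : ℕ → ℕ} {h : k ≤ φ i} {F : Finset (ℕ → ℕ)} {hF : F.Nonempty} :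
    e φ i k h ≤ b F hF ↔ φ ∈ F := Iff.rfl
theorem b_le_c {i : ℕ} {F : Finset (ℕ → ℕ)} {h : F.Nonempty} : b F h ≤ c i ↔ False := Iff.rfl
theorem b_le_e {i k : ℕ} {φ : ℕ → ℕ} {h : k ≤ φ i} {F : Finset (ℕ → ℕ)} {hF : F.Nonempty} :
    b F hF ≤ e φ i k h ↔ False := Iff.rfl
theorem b_le_b {F G : Finset (ℕ → ℕ)} {hF : F.Nonempty} {hG : G.Nonempty} :
    b F hF ≤ b G hG ↔ F ⊆ G := Iff.rfl

open Classical in
/-- The join. -/
noncomputable def sup : M → M → M
  | c i, c j => c (min i j)
  | c i, e ψ j l h => if j ≤ i then e ψ j l h else b {ψ} (Finset.singleton_nonempty _)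
  | c _, b F h => b F h
  | e φ i k h, c j => if i ≤ j then e φ i k h else b {φ} (Finset.singleton_nonempty _)
  | e φ i k h, e ψ j l h' =>
      if hh : φ = ψ ∧ i = j then e ψ j (max k l) (by
        obtain ⟨rfl, rfl⟩ := hh
        exact max_le h h')
      else b {φ, ψ} (Finset.insert_nonempty _ _)
  | e φ _ _ _, b F _ => b (insert φ F) (Finset.insert_nonempty _ _)
  | b F h, c _ => b F h
  | b F _, e φ _ _ _ => b (insert φ F) (Finset.insert_nonempty _ _)
  | b F h, b G _ => b (F ∪ G) (h.mono Finset.subset_union_left)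

open Classical in
/-- The meet. -/
noncomputable def inf : M → M → M
  | c i, c j => c (max i j)
  | c i, e _ j _ _ => c (max i j)
  | c i, b _ _ => c i
  | e _ i _ _, c j => c (max i j)
  | e φ i k h, e ψ j l h' =>
      if hh : φ = ψ ∧ i = j then e φ i (min k l) (le_trans (min_le_left _ _) h)
      else c (max i j)
  | e φ i k h, b F _ => if φ ∈ F then e φ i k h else c i
  | b _ _, c i => c i
  | b F _, e φ i k h => if φ ∈ F then e φ i k h else c i
  | b F _, b G _ => if h : (F ∩ G).Nonempty then b (F ∩ G) h else c 0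

open Classical in
noncomputable instance : Lattice M where
  sup := sup
  inf := inf
  le_sup_left x y := by
    show x ≤ sup x y
    cases x <;> cases y <;> simp only [sup]
    · rw [c_le_c]; omega
    · split_ifs with h
      · exact h
      · exact c_le_b.2 trivial
    · exact c_le_b.2 trivial
    · split_ifs with h
      · exact le_refl _
      · exact e_le_b.2 (Finset.mem_singleton_self _)
    · split_ifs with h
      · exact ⟨h.1, h.2, le_max_left _ _⟩
      · exact e_le_b.2 (Finset.mem_insert_self _ _)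
    · exact e_le_b.2 (Finset.mem_insert_self _ _)
    · exact le_refl _
    · exact b_le_b.2 (Finset.subset_insert _ _)
    · exact b_le_b.2 Finset.subset_union_left
  le_sup_right x y := by
    show y ≤ sup x y
    cases x <;> cases y <;> simp only [sup]
    · rw [c_le_c]; omega
    · split_ifs with h
      · exact le_refl _
      · exact e_le_b.2 (Finset.mem_singleton_self _)
    · exact le_refl _
    · split_ifs with h
      · exact h
      · exact c_le_b.2 trivial
    · split_ifs with h
      · exact ⟨rfl, rfl, le_max_right _ _⟩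
      · exact e_le_b.2 (Finset.mem_insert_of_mem (Finset.mem_singleton_self _))
    · exact b_le_b.2 (Finset.subset_insert _ _)
    · exact c_le_b.2 trivial
    · exact e_le_b.2 (Finset.mem_insert_self _ _)
    · exact b_le_b.2 Finset.subset_union_right
  sup_le x y z hxz hyz := by
    show sup x y ≤ z
    cases x <;> cases y <;> cases z <;>
      simp only [c_le_c, c_le_e, c_le_b, e_le_c, e_le_e, e_le_b, b_le_c, b_le_e, b_le_b] at hxz hyz <;> simp only [sup]
    · rw [c_le_c]; omega
    · rw [c_le_e]; omega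
    · exact c_le_b.2 trivial
    · obtain ⟨rfl, rfl, h⟩ := hyz
      rw [if_pos hxz]
      exact ⟨rfl, rfl, h⟩
    · split_ifs with h
      · exact hyz
      · exact b_le_b.2 (Finset.singleton_subset_iff.2 hyz)
    · exact hyz
    · obtain ⟨rfl, rfl, h⟩ := hxz
      rw [if_pos hyz]
      exact ⟨rfl, rfl, h⟩
    · split_ifs with h
      · exact hxz
      · exact b_le_b.2 (Finset.singleton_subset_iff.2 hxz)
    · obtain ⟨rfl, rfl, h⟩ := hxz
      obtain ⟨rfl, rfl, h'⟩ := hyz
      rw [dif_pos ⟨rfl, rfl⟩]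
      exact ⟨rfl, rfl, max_le h h'⟩
    · split_ifs with h
      · exact hyz
      · exact b_le_b.2 (Finset.insert_subset hxz (Finset.singleton_subset_iff.2 hyz))
    · exact b_le_b.2 (Finset.insert_subset hxz hyz)
    · exact hxz
    · exact b_le_b.2 (Finset.insert_subset hyz hxz)
    · exact b_le_b.2 (Finset.union_subset hxz hyz)
  inf_le_left x y := by
    show inf x y ≤ x
    cases x <;> cases y <;> simp only [inf]
    · rw [c_le_c]; omega
    · rw [c_le_c]; omega
    · exact le_refl _
    · rw [c_le_e]; omega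
    · split_ifs with h
      · exact ⟨rfl, rfl, min_le_left _ _⟩
      · rw [c_le_e]; omega
    · split_ifs with h
      · exact le_refl _
      · rw [c_le_e]
    · exact c_le_b.2 trivial
    · split_ifs with h
      · exact e_le_b.2 h
      · exact c_le_b.2 trivial
    · split_ifs with h
      · exact b_le_b.2 Finset.inter_subset_left
      · exact c_le_b.2 trivial
  inf_le_right x y := by
    show inf x y ≤ y
    cases x <;> cases y <;> simp only [inf]
    · rw [c_le_c]; omega
    · rw [c_le_e]; omega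
    · exact c_le_b.2 trivial
    · rw [c_le_c]; omega
    · split_ifs with h
      · exact ⟨h.1, h.2, min_le_right _ _⟩
      · rw [c_le_e]; omega
    · split_ifs with h
      · exact e_le_b.2 h
      · exact c_le_b.2 trivial
    · exact le_refl _
    · split_ifs with h
      · exact le_refl _
      · rw [c_le_e]
    · split_ifs with h
      · exact b_le_b.2 Finset.inter_subset_right
      · exact c_le_b.2 trivial
  le_inf x y z hxy hxz := by
    show x ≤ inf y z
    cases x <;> cases y <;> cases z <;>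
      simp only [c_le_c, c_le_e, c_le_b, e_le_c, e_le_e, e_le_b, b_le_c, b_le_e, b_le_b] at hxy hxz <;> simp only [inf]
    · rw [c_le_c]; omega
    · rw [c_le_c]; omega
    · exact hxy
    · rw [c_le_c]; omega
    · split_ifs with h
      · exact hxy
      · rw [c_le_c]; omega
    · split_ifs with h
      · exact hxy
      · exact hxy
    · exact hxz
    · split_ifs with h
      · exact hxz
      · exact hxz
    · split_ifs with h
      · exact c_le_b.2 trivial
      · rw [c_le_c]; omega
    · obtain ⟨rfl, rfl, h⟩ := hxy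
      obtain ⟨rfl, rfl, h'⟩ := hxz
      rw [dif_pos ⟨rfl, rfl⟩]
      exact ⟨rfl, rfl, le_min h h'⟩
    · obtain ⟨rfl, rfl, h⟩ := hxy
      rw [if_pos hxz]
      exact ⟨rfl, rfl, h⟩
    · obtain ⟨rfl, rfl, h⟩ := hxz
      rw [if_pos hxy]
      exact ⟨rfl, rfl, h⟩
    · have h : _ ∈ _ ∩ _ := Finset.mem_inter.2 ⟨hxy, hxz⟩
      rw [dif_pos ⟨_, h⟩]
      exact e_le_b.2 h
    · rename_i F hF G hG H hH
      have h : F ⊆ G ∩ H := Finset.subset_inter hxy hxz
      rw [dif_pos (hF.mono h)]
      exact b_le_b.2 h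

/-! ### Local chain-boundedness -/

/-- An upper bound for the values `φ i` with `φ ∈ G` and `i ≤ N`. -/
def K (N : ℕ) (G : Finset (ℕ → ℕ)) : ℕ := ∑ φ ∈ G, ∑ i ∈ Finset.range (N + 1), φ i

theorem le_K {N : ℕ} {G : Finset (ℕ → ℕ)} {φ : ℕ → ℕ} {i : ℕ} (hφ : φ ∈ G) (hi : i ≤ N) :
    φ i ≤ K N G := by
  calc φ i ≤ ∑ i ∈ Finset.range (N + 1), φ i :=
        Finset.single_le_sum (f := φ) (fun _ _ => Nat.zero_le _)
          (Finset.mem_range.2 (Nat.lt_succ_of_le hi))
    _ ≤ K N G := Finset.single_le_sum (f := fun φ => ∑ i ∈ Finset.range (N + 1), φ i)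
          (fun _ _ => Nat.zero_le _) hφ

/-- A height function on the interval `[c N, b G]`. -/
def ht (N : ℕ) (G : Finset (ℕ → ℕ)) : M → ℕ
  | c i => N - i
  | e _ _ k _ => N + 1 + k
  | b F _ => N + 2 + K N G + F.card

theorem ht_lt {N : ℕ} {G : Finset (ℕ → ℕ)} {hG : G.Nonempty} {x y : M} (hx : c N ≤ x)
    (hy : y ≤ b G hG) (hxy : x < y) : ht N G x < ht N G y := by
  obtain ⟨hle, hnot⟩ := lt_iff_le_not_ge.1 hxy
  cases x <;> cases y <;>
    simp only [c_le_c, c_le_e, c_le_b, e_le_c, e_le_e, e_le_b, b_le_c, b_le_e, b_le_b,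
      not_le, not_true_eq_false, not_false_eq_true] at hx hy hle hnot <;> simp only [ht]
  · omega
  · omega
  · omega
  · obtain ⟨rfl, rfl, h⟩ := hle
    have : ¬ _ ≤ _ := fun h' => hnot ⟨rfl, rfl, h'⟩
    omega
  · rename_i φ i k hk F hF
    have h1 := le_K (hy hle) hx
    omega
  · have := Finset.card_lt_card (Finset.ssubset_iff_subset_ne.2
      ⟨hle, fun h => hnot (h ▸ Finset.Subset.refl _)⟩)
    omega

theorem ht_le {N : ℕ} {G : Finset (ℕ → ℕ)} {hG : G.Nonempty} {x : M} (hx : c N ≤ x)
    (hy : x ≤ b G hG) : ht N G x ≤ N + 2 + K N G + G.card := by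
  cases x with
  | c i => simp only [ht]; omega
  | e φ i k hk =>
    have h1 := le_K (e_le_b.1 hy) (c_le_e.1 hx)
    simp only [ht]; omega
  | b F hF =>
    have := Finset.card_le_card (b_le_b.1 hy)
    simp only [ht]; omega

theorem exists_c_le (x : M) : ∃ N, c N ≤ x := by
  cases x with
  | c i => exact ⟨i, le_refl _⟩
  | e φ i k hk => exact ⟨i, c_le_e.2 le_rfl⟩
  | b F hF => exact ⟨0, c_le_b.2 trivial⟩

theorem exists_le_b (x : M) : ∃ G, ∃ hG : G.Nonempty, x ≤ b G hG := by
  cases x with
  | c i => exact ⟨{fun _ => 0}, Finset.singleton_nonempty _, c_le_b.2 trivial⟩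
  | e φ i k hk => exact ⟨{φ}, Finset.singleton_nonempty _, e_le_b.2 (Finset.mem_singleton_self _)⟩
  | b F hF => exact ⟨F, hF, le_refl _⟩

theorem locallyChainBounded : LocallyChainBounded M := by
  intro x y _
  obtain ⟨N, hN⟩ := exists_c_le x
  obtain ⟨G, hG, hGy⟩ := exists_le_b y
  refine ⟨N + 2 + K N G + G.card + 1, fun C hC hchain => ?_⟩
  have hinj : Set.InjOn (ht N G) C := by
    intro u hu v hv huv
    by_contra hne
    have hu1 := hC hu
    have hv1 := hC hv
    rcases hchain hu hv hne with h | h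
    · exact (ht_lt (hN.trans hu1.1) (hv1.2.trans hGy) (lt_of_le_of_ne h hne)).ne huv
    · exact (ht_lt (hN.trans hv1.1) (hu1.2.trans hGy) (lt_of_le_of_ne h (Ne.symm hne))).ne huv.symm
  have hsub : ht N G '' C ⊆ (Finset.range (N + 2 + K N G + G.card + 1) : Set ℕ) := by
    rintro _ ⟨u, hu, rfl⟩
    have hu1 := hC hu
    rw [Finset.mem_coe, Finset.mem_range]
    have := ht_le (hN.trans hu1.1) (hu1.2.trans hGy)
    omega
  have hfin : (ht N G '' C).Finite := (Finset.finite_toSet _).subset hsub
  refine ⟨Set.Finite.of_finite_image hfin hinj, ?_⟩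
  rw [← hinj.ncard_image]
  calc (ht N G '' C).ncard ≤ ((Finset.range (N + 2 + K N G + G.card + 1) : Finset ℕ) : Set ℕ).ncard :=
        Set.ncard_le_ncard hsub (Finset.finite_toSet _)
    _ = N + 2 + K N G + G.card + 1 := by rw [Set.ncard_coe_finset, Finset.card_range]

theorem no_strictMono (f : M → ℤ) : ¬ ∀ x y : M, x < y → f x < f y := by
  intro hf
  let φ : ℕ → ℕ := fun i => (i - f (c i)).toNat
  have he : ∀ i k (hk : k ≤ φ i), f (c i) + 1 + k ≤ f (e φ i k hk) := by
    intro i k
    induction k with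
    | zero =>
      intro hk
      have h : c i < e φ i 0 hk := lt_iff_le_not_ge.2 ⟨c_le_e.2 le_rfl, fun h => h⟩
      have := hf _ _ h
      push_cast
      omega
    | succ k ih =>
      intro hk
      have h0 := ih (by omega)
      have h : e φ i k (by omega) < e φ i (k + 1) hk :=
        lt_iff_le_not_ge.2 ⟨⟨rfl, rfl, by omega⟩, fun h => absurd h.2.2 (by omega)⟩
      have := hf _ _ h
      push_cast
      omega
  have hb : ∀ i : ℕ, (i : ℤ) ≤ f (b {φ} (Finset.singleton_nonempty _)) := by
    intro i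
    have h1 := he i (φ i) le_rfl
    have h2 : e φ i (φ i) le_rfl < b {φ} (Finset.singleton_nonempty _) :=
      lt_iff_le_not_ge.2 ⟨e_le_b.2 (Finset.mem_singleton_self _), fun h => h⟩
    have h3 := hf _ _ h2
    have h4 : (i : ℤ) - f (c i) ≤ (φ i : ℤ) := Int.self_le_toNat _
    omega
  have := hb ((f (b {φ} (Finset.singleton_nonempty _))).toNat + 1)
  push_cast at this
  have h5 := Int.self_le_toNat (f (b {φ} (Finset.singleton_nonempty _)))
  omega

end M

/-- There is a locally chain-bounded lattice that has no strictly monotone map to the integers. -/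
theorem result : ∃ (L : Type) (_ : Lattice L), LocallyChainBounded L ∧
    ¬ ∃ f : L → ℤ, ∀ x y : L, x < y → f x < f y :=
  ⟨M, inferInstance, M.locallyChainBounded, fun ⟨f, hf⟩ => M.no_strictMono f hf⟩

end Pool.Agent.Results.MP_df7fe8_co.NoStrictMap
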